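import Pool.Agent.Q204.WI.Interp
import Pool.Agent.H190R3.WeiCard

/-!
Intermediate Weihrauch degrees for chains of order type omega plus omega-star.

`Problem` is the type of multi-valued functions on Baire space (`sol x` is the set of solutions of
the instance `x`, the domain consists of the instances having a solution), preordered by Weihrauch
reducibility; the functionals are the ones induced by computable monotone word functions.
`Degree` is the associated partial order of Weihrauch degrees.
-/

namespace Pool.Agent.Results.MP_2d238a_lc.IntermediateDegree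

open Pool.Agent.H190R3.Wei

/-- **Answer.** Any two sequences of Weihrauch degrees with `f n ≤ h m` for all `n, m` have an
intermediate degree; in particular no chain of order type `ω + ω*` is without one. -/
theorem result :
    -- Weihrauch reducibility, spelled out
    (∀ f g : Problem, f ≤ g ↔ ∃ φ ψ : List ℕ → List ℕ, IsMachine φ ∧ IsMachine ψ ∧
      ∀ x, (f.sol x).Nonempty → ∃ y, Maps φ x y ∧ (g.sol y).Nonempty ∧
        ∀ z ∈ g.sol y, ∃ w ∈ f.sol x, Maps ψ (pair x z) w) ∧
    (∀ f h : ℕ → Degree, (∀ n m, f n ≤ h m) → ∃ g : Degree, ∀ n m, f n ≤ g ∧ g ≤ h m) ∧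
    ¬ ∃ f h : ℕ → Degree, StrictMono f ∧ StrictAnti h ∧ (∀ n m, f n < h m) ∧
      ¬ ∃ g : Degree, ∀ n m, f n ≤ g ∧ g ≤ h m := by
  have key : ∀ f h : ℕ → Degree, (∀ n m, f n ≤ h m) → ∃ g : Degree, ∀ n m, f n ≤ g ∧ g ≤ h m := by
    intro f h hfh
    let F : ℕ → Problem := fun n => ofAntisymmetrization (· ≤ ·) (f n)
    let H : ℕ → Problem := fun n => ofAntisymmetrization (· ≤ ·) (h n)
    have hf : ∀ n, toAntisymmetrization (· ≤ ·) (F n) = f n := fun n =>
      toAntisymmetrization_ofAntisymmetrization _ _
    have hh : ∀ n, toAntisymmetrization (· ≤ ·) (H n) = h n := fun n =>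
      toAntisymmetrization_ofAntisymmetrization _ _
    obtain ⟨g, h1, h2⟩ := Q204.WI.interpolation F H (fun n m => by
      rw [← toAntisymmetrization_le_toAntisymmetrization_iff, hf, hh]
      exact hfh n m)
    refine ⟨toAntisymmetrization (· ≤ ·) g, fun n m => ⟨?_, ?_⟩⟩
    · rw [← hf, toAntisymmetrization_le_toAntisymmetrization_iff]
      exact h1 n
    · rw [← hh, toAntisymmetrization_le_toAntisymmetrization_iff]
      exact h2 m
  refine ⟨fun f g => Iff.rfl, key, ?_⟩
  rintro ⟨f, h, -, -, hfh, hno⟩
  exact hno (key f h fun n m => (hfh n m).le)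

end Pool.Agent.Results.MP_2d238a_lc.IntermediateDegree
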